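import Mathlib

namespace Pool.Agent.Results.MP_fdbc88_co.Counter
open SimpleGraph

/-- The neighbor-locating chromatic number. -/
noncomputable def chiNL {V : Type} (G : SimpleGraph V) : ℕ :=
  sInf {k | ∃ c : V → Fin k, (∀ u v, G.Adj u v → c u ≠ c v) ∧
    ∀ u v, u ≠ v → c u = c v → c '' G.neighborSet u ≠ c '' G.neighborSet v}

lemma path (m : ℕ) (hm : 25 ≤ m) : 5 ≤ chiNL (pathGraph m) := by
  classical
  obtain ⟨c, h1, h2⟩ := Nat.sInf_mem (s := {k | ∃ c : Fin m → Fin k,
      (∀ u v, (pathGraph m).Adj u v → c u ≠ c v) ∧ ∀ u v, u ≠ v → c u = c v →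
        c '' (pathGraph m).neighborSet u ≠ c '' (pathGraph m).neighborSet v})
    ⟨m, id, fun u v h => h.ne, fun u v h e => absurd e h⟩
  by_contra hh
  have hk : chiNL (pathGraph m) ≤ 4 := by omega
  let e : Fin m → Fin 4 := fun v => Fin.castLE hk (c v)
  let g : ℕ → Fin 4 := fun i => if h : i < m then e ⟨i, h⟩ else 0
  have := Finset.card_le_card_of_injOn (s := Finset.univ)
    (t := Finset.univ.filter fun p : Fin 4 × Finset (Fin 4) => p.1 ∉ p.2 ∧ p.2 ≠ ∅ ∧ p.2.card ≤ 2)
    (fun v => (e v, Finset.univ.filter fun j => ∃ u, (pathGraph m).Adj v u ∧ e u = j)) (by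
      intro v _
      simp only [Finset.coe_filter, Finset.mem_univ, true_and, Set.mem_setOf_eq, Finset.mem_filter]
      refine ⟨fun ⟨u, hu, q⟩ => h1 v u hu (Fin.castLE_injective hk q).symm, ?_, ?_⟩
      · apply Finset.ne_empty_of_mem (a := if v.val = 0 then e ⟨1, by omega⟩ else
          e ⟨v.val - 1, by omega⟩)
        simp only [Finset.mem_filter, Finset.mem_univ, true_and]
        split_ifs with q
        · exact ⟨_, by rw [pathGraph_adj]; simp [q], rfl⟩
        · exact ⟨_, by rw [pathGraph_adj]; simp; omega, rfl⟩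
      · refine (Finset.card_le_card (t := {g (v.val - 1), g (v.val + 1)}) ?_).trans
          Finset.card_le_two
        intro j hj
        obtain ⟨u, hu, rfl⟩ := (Finset.mem_filter.1 hj).2
        rw [pathGraph_adj] at hu
        rcases hu with q | q
        · simp [g, q]
        · simp [g, ← q]) (by
      intro u _ v _ q
      simp only [Prod.mk.injEq] at q
      by_contra n
      refine h2 u v n (Fin.castLE_injective hk q.1) ?_
      ext j
      have := Finset.ext_iff.1 q.2 (Fin.castLE hk j)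
      simp only [Finset.mem_filter, Finset.mem_univ, true_and, e, Fin.castLE_inj] at this
      exact this)
  rw [Finset.card_univ, Fintype.card_fin] at this
  have z : (Finset.univ.filter fun p : Fin 4 × Finset (Fin 4) =>
      p.1 ∉ p.2 ∧ p.2 ≠ ∅ ∧ p.2.card ≤ 2).card = 24 := by decide +kernel
  have := this.trans_eq (by convert z)
  omega

def H : SimpleGraph (Fin 26) where
  Adj a b := (a.val + 1 = b.val ∧ b ≠ 25) ∨ (b.val + 1 = a.val ∧ a ≠ 25) ∨
    (a = 25 ∧ 1 ≤ b ∧ b ≤ 3) ∨ (b = 25 ∧ 1 ≤ a ∧ a ≤ 3)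
  symm := ⟨by decide +kernel⟩
  loopless := ⟨by decide +kernel⟩

instance : DecidableRel H.Adj := fun a b => by unfold H; infer_instance

def col : Fin 26 → Fin 4 :=
  ![1, 2, 3, 1, 0, 1, 0, 2, 0, 2, 1, 0, 3, 0, 2, 3, 0, 3, 1, 2, 3, 2, 3, 1, 3, 0]

theorem result : ¬ ∀ (n : ℕ) (G : SimpleGraph (Fin n)) (d : ℕ), G.Connected → G.diam = d →
    chiNL (pathGraph (d + 1)) ≤ chiNL G := by
  intro h
  have k : ∀ i : ℕ, ∀ hi : i < 26, H.Reachable 0 ⟨i, hi⟩ := by
    intro i
    induction i using Nat.strong_induction_on with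
    | _ i ih =>
      intro hi
      have q : ∀ v : Fin 26, v = 0 ∨ ∃ u < v, H.Adj u v := by decide +kernel
      rcases q ⟨i, hi⟩ with e | ⟨u, hu, e⟩
      · rw [e]
      · exact (ih u hu u.2).trans e.reachable
  have hc : H.Connected := ⟨fun a b => (k a a.2).symm.trans (k b b.2)⟩
  have a := h 26 H _ hc rfl
  have b : chiNL H ≤ 4 := Nat.sInf_le ⟨col, by decide +kernel, fun u v n e q => by
    have : ∀ u v, u ≠ v → col u = col v → ∃ j, ¬ ((∃ x, H.Adj u x ∧ col x = j) ↔
        ∃ x, H.Adj v x ∧ col x = j) := by decide +kernel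
    obtain ⟨j, hj⟩ := this u v n e
    exact hj (Set.ext_iff.1 q j)⟩
  have w : ∀ u v (p : H.Walk u v), (if v = 25 then 2 else v.val) ≤
      (if u = 25 then 2 else u.val) + p.length := by
    intro u v p
    induction p with
    | nil => simp
    | @cons x y z e p ih =>
      have : ∀ x y, H.Adj x y → (if y = 25 then 2 else y.val) ≤
          (if x = 25 then 2 else x.val) + 1 := by decide +kernel
      have := this x y e
      rw [Walk.length_cons]; omega
  obtain ⟨p, hp⟩ := hc.exists_walk_length_eq_dist 0 24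
  have c := w 0 24 p
  have d : H.dist 0 24 ≤ H.diam := dist_le_diam (connected_iff_ediam_ne_top.1 hc)
  have := path (H.diam + 1) (by
    rw [if_neg (by decide), if_neg (by decide), hp] at c
    have : 24 ≤ H.dist 0 24 := by simpa using c
    omega)
  omega

end Pool.Agent.Results.MP_fdbc88_co.Counter
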